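import Pool.Agent.H.MP_288038_co.Main

set_option autoImplicit false

namespace Pool.Agent.Results.MP_288038_co.Unbounded

/-- An integer point as a real point. -/
def cst {d : ℕ} (v : Fin d → ℤ) : Fin d → ℝ := fun i => (v i : ℝ)

/-- `H` is a hiding set of `X`. -/
def Hiding {d : ℕ} (X H : Set (Fin d → ℤ)) : Prop :=
  (∀ p ∈ H, p ∉ X) ∧ ∀ p ∈ H, ∀ q ∈ H, p ≠ q →
    (segment ℝ (cst p) (cst q) ∩ convexHull ℝ (cst '' X)).Nonempty

theorem result (h : ℕ) : ∃ X : Set (Fin 4 → ℤ), X.Finite ∧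
    (∀ v : Fin 4 → ℤ, cst v ∈ convexHull ℝ (cst '' X) ↔ v ∈ X) ∧
    affineSpan ℝ (cst '' X) = ⊤ ∧
    ∃ c : ℕ, (∀ H, Hiding X H → H.encard ≤ c) ∧
      ∀ (m : ℕ) (a : Fin m → Fin 4 → ℝ) (b : Fin m → ℝ),
        (∀ v : Fin 4 → ℤ, (∀ k, a k ⬝ᵥ cst v ≤ b k) ↔ v ∈ X) → c + h < m := by
  refine ⟨H.MP_288038_co.X (4 * h + 44 : ℕ), H.MP_288038_co.X_finite _ (by positivity),
    fun v => ⟨H.MP_288038_co.latconv _ v, fun hv => subset_convexHull ℝ _ ⟨v, hv, rfl⟩⟩,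
    H.MP_288038_co.fulldim _ (by omega), 4 * h + 44 + 10, fun S hS => ?_, fun m a b hab => ?_⟩
  · exact H.MP_288038_co.hiding_le _ S hS.1 fun p hp q hq hne hc => hc (hS.2 p hp q hq hne)
  · have := H.MP_288038_co.rc_ge _ m a b hab
    omega

end Pool.Agent.Results.MP_288038_co.Unbounded
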